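import Pool.Agent.H7.SLP.SLK
import Pool.Agent.H77.KAL.RMN
import Pool.Agent.H33.KAL.RMG
import Pool.Agent.H87.KAL.GIB
import Pool.Agent.H73.KAF.RST

/-!
# Unisolvent typical points (K_SLOPE 5.2)

A set of points which meets many cells of a grid contains points at which a given family of
monomials is boundedly invertible.
-/

set_option autoImplicit false

namespace Pool.SLP

open Finset Pool.KAL
open Pool.Agent.H49.Ent Pool.Agent.H32.Dense Pool.STK Pool.KAF

/-- Independence of monomials with distinct exponents on the cube. -/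
theorem mon_indep' {k : ℕ} {ι : Type} [Fintype ι] (K : ℕ) (e : ι → Fin k → ℕ)
    (he : Function.Injective e) (hK : ∀ i l, e i l ≤ K) (c : ι → ℝ)
    (h : ∀ x : {x : Fin k → ℝ // ∀ l, |x l| ≤ 1}, ∑ i, c i * mon (e i) x.1 = 0) : c = 0 := by
  classical
  have hs : ∀ i, ∑ l, e i l ≤ k * K := fun i => by
    calc ∑ l, e i l ≤ ∑ l : Fin k, K := Finset.sum_le_sum fun l _ => hK i l
      _ = k * K := by simp
  have hb : ∀ i l, e i l < k * K + 1 := fun i l => by
    have := (Finset.single_le_sum (f := e i) (fun _ _ => Nat.zero_le _)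
      (Finset.mem_univ l)).trans (hs i)
    omega
  let g : ι → Ix k (k * K) := fun i => ⟨fun l => ⟨e i l, hb i l⟩, hs i⟩
  have hg : ∀ i, ex (g i) = e i := fun i => rfl
  have hgi : Function.Injective g := fun i j hij => he (by rw [← hg i, ← hg j, hij])
  have h1 := mon_indep (k := k) (K := k * K) (fun al => ∑ i, if g i = al then c i else 0)
    (fun x => by
      refine Eq.trans ?_ (h x)
      simp only [Finset.sum_mul]
      rw [Finset.sum_comm]
      refine Finset.sum_congr rfl fun i _ => ?_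
      rw [Finset.sum_eq_single (g i)]
      · simp [hg]
      · intro b _ hb
        rw [if_neg (Ne.symm hb)]
        ring
      · intro h
        exact absurd (mem_univ _) h)
  funext i
  have h2 : (∑ j, if g j = g i then c j else 0) = 0 := congrFun h1 (g i)
  rw [Finset.sum_eq_single i] at h2
  · simpa using h2
  · intro b _ hb
    rw [if_neg (fun h => hb (hgi h))]
  · intro h
    exact absurd (mem_univ _) h

/-- The coefficients are bounded by the values on the cube. -/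
theorem coeff_bd {k : ℕ} {ι : Type} [Fintype ι] [DecidableEq ι] (K : ℕ) (e : ι → Fin k → ℕ)
    (he : Function.Injective e) (hK : ∀ i l, e i l ≤ K) :
    ∃ A : ℝ, 0 ≤ A ∧ ∀ (c : ι → ℝ) (M : ℝ),
      (∀ Y : Fin k → ℝ, (∀ l, |Y l| ≤ 1) → |∑ i, c i * mon (e i) Y| ≤ M) →
      ∀ i, |c i| ≤ A * M := by
  classical
  obtain ⟨x0, hx0⟩ := uni_pts (σ := {x : Fin k → ℝ // ∀ l, |x l| ≤ 1})
    (fun (i : ι) x => mon (e i) x.1) (mon_indep' K e he hK)
  set G : Matrix ι ι ℝ := Matrix.of fun j i => mon (e i) (x0 j).1 with hG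
  refine ⟨∑ i, ∑ j, |G⁻¹ i j|, by positivity, fun c M hM i => ?_⟩
  have h1 : G⁻¹.mulVec (G.mulVec c) = c := by
    rw [Matrix.mulVec_mulVec, Matrix.nonsing_inv_mul _ (isUnit_iff_ne_zero.2 hx0),
      Matrix.one_mulVec]
  have h2 : ∀ j, |(G.mulVec c) j| ≤ M := fun j => by
    have := hM (x0 j).1 (x0 j).2
    simpa [G, Matrix.mulVec, dotProduct, mul_comm] using this
  have h3 : |c i| ≤ ∑ j, |G⁻¹ i j| * M := by
    conv_lhs => rw [← h1]
    refine (Finset.abs_sum_le_sum_abs _ _).trans ?_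
    refine Finset.sum_le_sum fun j _ => ?_
    rw [abs_mul]
    exact mul_le_mul_of_nonneg_left (h2 j) (abs_nonneg _)
  have hM0 : 0 ≤ M := (abs_nonneg _).trans (hM 0 (fun l => by simp))
  calc |c i| ≤ ∑ j, |G⁻¹ i j| * M := h3
    _ = (∑ j, |G⁻¹ i j|) * M := by rw [Finset.sum_mul]
    _ ≤ (∑ i, ∑ j, |G⁻¹ i j|) * M := by
        refine mul_le_mul_of_nonneg_right ?_ hM0
        exact Finset.single_le_sum (f := fun i => ∑ j, |G⁻¹ i j|)
          (fun _ _ => Finset.sum_nonneg fun _ _ => abs_nonneg _) (Finset.mem_univ i)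

/-- A shifted and scaled monomial as a polynomial. -/
noncomputable def shp {k : ℕ} (y0 : Fin k → ℝ) (h : ℝ) (e : Fin k → ℕ) :
    MvPolynomial (Fin k) ℝ :=
  ∏ l, (MvPolynomial.C (y0 l) + MvPolynomial.C h * MvPolynomial.X l) ^ e l

theorem shp_eval {k : ℕ} (y0 : Fin k → ℝ) (h : ℝ) (e : Fin k → ℕ) (x : Fin k → ℝ) :
    MvPolynomial.eval x (shp y0 h e) = mon e (fun l => y0 l + h * x l) := by
  simp [shp, mon]

theorem shp_degreeOf {k K : ℕ} (y0 : Fin k → ℝ) (h : ℝ) (e : Fin k → ℕ) (hK : ∀ l, e l ≤ K)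
    (i : Fin k) : (shp y0 h e).degreeOf i ≤ k * K := by
  rw [shp]
  refine (MvPolynomial.degreeOf_prod_le i _ _).trans ?_
  calc ∑ l : Fin k, MvPolynomial.degreeOf i
        ((MvPolynomial.C (y0 l) + MvPolynomial.C h * MvPolynomial.X l) ^ e l)
      ≤ ∑ l : Fin k, K := by
        refine Finset.sum_le_sum fun l _ => ?_
        refine (MvPolynomial.degreeOf_pow_le i _ _).trans ?_
        have h1 : MvPolynomial.degreeOf i
            (MvPolynomial.C (y0 l) + MvPolynomial.C h * MvPolynomial.X l :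
              MvPolynomial (Fin k) ℝ) ≤ 1 := by
          refine (MvPolynomial.degreeOf_add_le i _ _).trans ?_
          refine max_le ?_ ?_
          · rw [MvPolynomial.degreeOf_C]
            exact Nat.zero_le _
          · refine (MvPolynomial.degreeOf_C_mul_le _ _ _).trans ?_
            rw [MvPolynomial.degreeOf_X]
            split_ifs <;> simp
        calc e l * _ ≤ e l * 1 := Nat.mul_le_mul_left _ h1
          _ = e l := mul_one _
          _ ≤ K := hK l
    _ = k * K := by simp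

/-- A dense set of grid points contains a point at which the polynomial is large. -/
theorem dense_pt {k : ℕ} {ι : Type} [Fintype ι] [DecidableEq ι] (K : ℕ) (e : ι → Fin k → ℕ)
    (he : Function.Injective e) (hK : ∀ i l, e i l ≤ K) (B : ℝ) (hB : 0 ≤ B) :
    ∃ C : ℕ, 1 ≤ C ∧ ∀ (N : ℕ) (ρ : ℝ) (y0 : Fin k → ℝ) (c : ι → ℝ)
      (S : Finset (Fin k → Fin N)) (μ : ℝ), 0 < ρ → ρ ≤ 1 → (C : ℝ) ≤ ρ ^ C * N →
      (∀ l, |y0 l| ≤ B) → ρ * (N : ℝ) ^ k ≤ S.card → 0 < μ → (∃ i, μ ≤ |c i|) →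
      ∃ s ∈ S, μ * ρ ^ C / C < |∑ i, c i * mon (e i) (fun l => y0 l + ((s l : ℕ) : ℝ) / N)| := by
  classical
  obtain ⟨A, hA, hcb⟩ := coeff_bd K e he hK
  obtain ⟨Cr, hCr, hrm⟩ := rmn_thm rmg_thm k (k * K)
  set C : ℕ := Cr + ⌈A * Cr * (1 + B) ^ Cr⌉₊ + 1 with hC
  have hCge : Cr ≤ C := by omega
  have hCgt : A * Cr * (1 + B) ^ Cr < C := by
    have := Nat.le_ceil (A * Cr * (1 + B) ^ Cr)
    rw [hC]
    push_cast
    have h2 : (0 : ℝ) ≤ Cr := Nat.cast_nonneg _
    linarith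
  have hC0 : (0 : ℝ) < C := by
    rw [hC]
    positivity
  refine ⟨C, by omega, fun N ρ y0 c S μ hρ hρ1 hN hy0 hS hμ ⟨i, hi⟩ => ?_⟩
  by_contra hcon
  push Not at hcon
  have hNpos : (0 : ℝ) < N := by
    by_contra h
    have h1 : (N : ℝ) = 0 := le_antisymm (not_lt.1 h) (Nat.cast_nonneg _)
    rw [h1, mul_zero] at hN
    linarith
  set P : MvPolynomial (Fin k) ℝ := ∑ i, MvPolynomial.C (c i) * shp y0 (1 / N) (e i) with hP
  have hPe : ∀ x : Fin k → ℝ, MvPolynomial.eval x P =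
      ∑ i, c i * mon (e i) (fun l => y0 l + 1 / N * x l) := fun x => by
    rw [hP, map_sum]
    refine Finset.sum_congr rfl fun i _ => ?_
    rw [map_mul, MvPolynomial.eval_C, shp_eval]
  have hPd : ∀ j, P.degreeOf j ≤ k * K := fun j => by
    rw [hP]
    refine (MvPolynomial.degreeOf_sum_le j _ _).trans ?_
    refine Finset.sup_le fun i _ => ?_
    exact (MvPolynomial.degreeOf_C_mul_le _ _ _).trans (shp_degreeOf _ _ _ (hK i) j)
  set M : ℝ := μ * ρ ^ C / C with hM
  have hM0 : 0 ≤ M := by rw [hM]; positivity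
  have hCrN : (Cr : ℝ) ≤ ρ ^ Cr * N := by
    have h1 : ρ ^ C ≤ ρ ^ Cr := pow_le_pow_of_le_one hρ.le hρ1 hCge
    calc (Cr : ℝ) ≤ C := by exact_mod_cast hCge
      _ ≤ ρ ^ C * N := hN
      _ ≤ ρ ^ Cr * N := mul_le_mul_of_nonneg_right h1 hNpos.le
  have hcount : ρ * (N : ℝ) ^ k ≤ ((univ.filter fun x : Fin k → Fin N =>
      |MvPolynomial.eval (fun i => ((x i : ℕ) : ℝ)) P| ≤ M).card : ℝ) := by
    refine hS.trans ?_
    exact_mod_cast Finset.card_le_card fun s hs => by
      rw [Finset.mem_filter]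
      refine ⟨Finset.mem_univ _, ?_⟩
      rw [hPe]
      have h1 := hcon s hs
      have h2 : (fun l => y0 l + 1 / (N : ℝ) * ((s l : ℕ) : ℝ)) =
          fun l => y0 l + ((s l : ℕ) : ℝ) / N := by
        funext l
        ring
      rw [h2]
      exact h1
  have hR := hrm N P ρ (1 + B) M hPd hρ hρ1 hCrN (by linarith) hM0 hcount
  have hval : ∀ Y : Fin k → ℝ, (∀ l, |Y l| ≤ 1) →
      |∑ i, c i * mon (e i) Y| ≤ Cr * ((1 + B) / ρ) ^ Cr * M := fun Y hY => by
    have h1 := hR (fun l => N * (Y l - y0 l)) (fun l => by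
      rw [abs_mul, abs_of_pos hNpos, mul_comm]
      refine mul_le_mul_of_nonneg_right ?_ hNpos.le
      have h3 : |Y l - y0 l| ≤ |Y l| + |y0 l| := abs_sub _ _
      have h4 := hY l
      have h5 := hy0 l
      linarith)
    rw [hPe] at h1
    have h2 : (fun l => y0 l + 1 / (N : ℝ) * (N * (Y l - y0 l))) = Y := by
      funext l
      field_simp
      ring
    rw [h2] at h1
    exact h1
  have hfin := hcb c _ hval i
  have h6 : A * (Cr * ((1 + B) / ρ) ^ Cr * M) < μ := by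
    rw [hM, div_pow]
    have h7 : ρ ^ C ≤ ρ ^ Cr := pow_le_pow_of_le_one hρ.le hρ1 hCge
    have h8 : (0 : ℝ) < ρ ^ Cr := by positivity
    calc A * (Cr * ((1 + B) ^ Cr / ρ ^ Cr) * (μ * ρ ^ C / C))
        = (A * Cr * (1 + B) ^ Cr) * (ρ ^ C / ρ ^ Cr) * μ / C := by ring
      _ ≤ (A * Cr * (1 + B) ^ Cr) * 1 * μ / C := by
          have h9 : ρ ^ C / ρ ^ Cr ≤ 1 := (div_le_one h8).2 h7
          gcongr
      _ < μ := by
          rw [mul_one, div_lt_iff₀ hC0]
          nlinarith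
  linarith

/-- Monomials are bounded and Lipschitz on bounded sets. -/
theorem mon_lip {k : ℕ} (e : Fin k → ℕ) (B : ℝ) (hB : 0 ≤ B) :
    ∃ L : ℝ, 0 ≤ L ∧ ∀ (Y Y' : Fin k → ℝ) (h : ℝ), 0 ≤ h → (∀ l, |Y l| ≤ B) →
      (∀ l, |Y' l| ≤ B) → (∀ l, |Y l - Y' l| ≤ h) → |mon e Y - mon e Y'| ≤ L * h := by
  classical
  have key : ∀ s : Finset (Fin k), ∃ P L : ℝ, 0 ≤ P ∧ 0 ≤ L ∧
      ∀ (Y Y' : Fin k → ℝ) (h : ℝ), 0 ≤ h → (∀ l, |Y l| ≤ B) → (∀ l, |Y' l| ≤ B) →
      (∀ l, |Y l - Y' l| ≤ h) → |∏ l ∈ s, Y l ^ e l| ≤ P ∧ |∏ l ∈ s, Y' l ^ e l| ≤ P ∧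
        |∏ l ∈ s, Y l ^ e l - ∏ l ∈ s, Y' l ^ e l| ≤ L * h := by
    intro s
    induction s using Finset.induction_on with
    | empty => exact ⟨1, 0, zero_le_one, le_refl _, fun Y Y' h hh _ _ _ => by simp⟩
    | insert a s ha ih =>
      obtain ⟨P, L, hP, hL, hPL⟩ := ih
      refine ⟨B ^ e a * P, B ^ e a * L + (e a * B ^ (e a - 1)) * P, by positivity, by positivity,
        fun Y Y' h hh hY hY' hd => ?_⟩
      obtain ⟨h1, h2, h3⟩ := hPL Y Y' h hh hY hY' hd
      rw [Finset.prod_insert ha, Finset.prod_insert ha]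
      have h4 : |Y a ^ e a| ≤ B ^ e a := by
        rw [abs_pow]
        exact pow_le_pow_left₀ (abs_nonneg _) (hY a) _
      have h5 : |Y' a ^ e a| ≤ B ^ e a := by
        rw [abs_pow]
        exact pow_le_pow_left₀ (abs_nonneg _) (hY' a) _
      have hBe : 0 ≤ B ^ e a := pow_nonneg hB _
      refine ⟨?_, ?_, ?_⟩
      · rw [abs_mul]
        exact mul_le_mul h4 h1 (abs_nonneg _) hBe
      · rw [abs_mul]
        exact mul_le_mul h5 h2 (abs_nonneg _) hBe
      · have h6 : |Y a ^ e a - Y' a ^ e a| ≤ h * (e a * B ^ (e a - 1)) := by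
          refine (abs_pow_sub_pow_le (Y a) (Y' a) (e a)).trans ?_
          have h7 : max |Y a| |Y' a| ≤ B := max_le (hY a) (hY' a)
          have h8 : max |Y a| |Y' a| ^ (e a - 1) ≤ B ^ (e a - 1) :=
            pow_le_pow_left₀ (le_max_of_le_left (abs_nonneg _)) h7 _
          calc |Y a - Y' a| * (e a : ℝ) * max |Y a| |Y' a| ^ (e a - 1)
              ≤ h * (e a : ℝ) * B ^ (e a - 1) := by
                refine mul_le_mul ?_ h8 (by positivity) (by positivity)
                exact mul_le_mul_of_nonneg_right (hd a) (Nat.cast_nonneg _)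
            _ = h * (e a * B ^ (e a - 1)) := by ring
        calc |Y a ^ e a * ∏ l ∈ s, Y l ^ e l - Y' a ^ e a * ∏ l ∈ s, Y' l ^ e l|
            = |Y a ^ e a * (∏ l ∈ s, Y l ^ e l - ∏ l ∈ s, Y' l ^ e l) +
                (Y a ^ e a - Y' a ^ e a) * ∏ l ∈ s, Y' l ^ e l| := by ring_nf
          _ ≤ |Y a ^ e a| * |∏ l ∈ s, Y l ^ e l - ∏ l ∈ s, Y' l ^ e l| +
                |Y a ^ e a - Y' a ^ e a| * |∏ l ∈ s, Y' l ^ e l| := by
              refine (abs_add_le _ _).trans ?_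
              rw [abs_mul, abs_mul]
          _ ≤ B ^ e a * (L * h) + h * (e a * B ^ (e a - 1)) * P := by
              refine add_le_add (mul_le_mul h4 h3 (abs_nonneg _) hBe) ?_
              exact mul_le_mul h6 h2 (abs_nonneg _) (by positivity)
          _ = (B ^ e a * L + e a * B ^ (e a - 1) * P) * h := by ring
  obtain ⟨P, L, hP, hL, hPL⟩ := key Finset.univ
  exact ⟨L, hL, fun Y Y' h hh hY hY' hd => (hPL Y Y' h hh hY hY' hd).2.2⟩

/-- **Greedy choice.** Points with a large determinant. -/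
theorem greedy {k : ℕ} {M : ℕ} (K : ℕ) (e : Fin M → Fin k → ℕ)
    (he : Function.Injective e) (hK : ∀ i l, e i l ≤ K) (B : ℝ) (hB : 0 ≤ B) :
    ∃ (C : ℕ) (D : ℝ), 1 ≤ C ∧ 0 ≤ D ∧ ∀ (N : ℕ) (ρ : ℝ) (ζ : Type) (y : ζ → Fin k → ℝ)
      (s : ζ → Fin k → Fin N) (y0 : Fin k → ℝ), 0 < ρ → ρ ≤ 1 → (C : ℝ) ≤ ρ ^ C * N →
      D ≤ (ρ ^ C / (2 * C)) ^ (M + 1) * N →
      (∀ l, |y0 l| ≤ B) → (∀ z l, |y z l| ≤ 1) →
      (∀ z l, |y z l - (y0 l + ((s z l : ℕ) : ℝ) / N)| ≤ 1 / N) →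
      (∃ S : Finset (Fin k → Fin N), (∀ x ∈ S, ∃ z, s z = x) ∧ ρ * (N : ℝ) ^ k ≤ S.card) →
      ∀ (r : ℕ) (hr : r ≤ M), ∃ z : Fin r → ζ, (ρ ^ C / (2 * C)) ^ r ≤
        |(Matrix.of fun a b : Fin r => mon (e (Fin.castLE hr b)) (y (z a))).det| := by
  classical
  obtain ⟨C, hC, hdp⟩ := dense_pt K e he hK B hB
  choose L hL hLip using fun i : Fin M => mon_lip (e i) (B + 1) (by linarith)
  set Lt : ℝ := ∑ i, L i with hLt
  have hLt0 : 0 ≤ Lt := Finset.sum_nonneg fun i _ => hL i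
  refine ⟨C, (M.factorial : ℝ) * Lt, hC, by positivity,
    fun N ρ ζ y s y0 hρ hρ1 hN hD hy0 hy hs ⟨S, hS, hSc⟩ => ?_⟩
  have hC0 : (0 : ℝ) < C := by exact_mod_cast hC
  have hNpos : (0 : ℝ) < N := by
    by_contra h
    have h1 : (N : ℝ) = 0 := le_antisymm (not_lt.1 h) (Nat.cast_nonneg _)
    rw [h1, mul_zero] at hN
    linarith
  set γ : ℝ := ρ ^ C / (2 * C) with hγ
  have hγ0 : 0 < γ := by rw [hγ]; positivity
  have hγ1 : γ ≤ 1 := by
    rw [hγ, div_le_one (by positivity)]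
    have h1 : ρ ^ C ≤ 1 := pow_le_one₀ hρ.le hρ1
    have h2 : (1 : ℝ) ≤ C := by exact_mod_cast hC
    linarith
  have hmon1 : ∀ i z, |mon (e i) (y z)| ≤ 1 := fun i z => by
    rw [mon, Finset.abs_prod]
    refine Finset.prod_le_one (fun _ _ => abs_nonneg _) fun l _ => ?_
    rw [abs_pow]
    exact pow_le_one₀ (abs_nonneg _) (hy z l)
  intro r
  induction r with
  | zero =>
    intro hr
    refine ⟨fun a => a.elim0, ?_⟩
    simp
  | succ r ih =>
    intro hr
    obtain ⟨z, hz⟩ := ih (by omega)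
    -- the polynomial
    set A : ζ → Matrix (Fin (r + 1)) (Fin (r + 1)) ℝ := fun w =>
      Matrix.of fun a b => mon (e (Fin.castLE hr b)) (y ((Fin.snoc z w : Fin (r + 1) → ζ) a))
      with hA
    set mi : Fin (r + 1) → ℝ := fun b => (-1) ^ (r + (b : ℕ)) *
      (Matrix.of fun (a : Fin r) (b' : Fin r) =>
        mon (e (Fin.castLE hr (b.succAbove b'))) (y (z a))).det with hmi
    have hdet : ∀ w, (A w).det = ∑ b, mi b * mon (e (Fin.castLE hr b)) (y w) := fun w => by
      rw [Matrix.det_succ_row (A w) (Fin.last r)]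
      refine Finset.sum_congr rfl fun b _ => ?_
      have h1 : (A w) (Fin.last r) b = mon (e (Fin.castLE hr b)) (y w) := by
        simp [hA, Fin.snoc_last]
      have h2 : (A w).submatrix (Fin.last r).succAbove b.succAbove =
          Matrix.of fun (a : Fin r) (b' : Fin r) =>
            mon (e (Fin.castLE hr (b.succAbove b'))) (y (z a)) := by
        ext a b'
        simp [hA, Fin.succAbove_last, Fin.snoc_castSucc]
      rw [h1, h2]
      simp only [hmi, Fin.val_last]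
      ring
    have hmilast : γ ^ r ≤ |mi (Fin.last r)| := by
      simp only [hmi, Fin.val_last]
      rw [abs_mul, abs_pow, abs_neg, abs_one, one_pow, one_mul]
      refine hz.trans (le_of_eq ?_)
      congr 3
      ext a b'
      simp [Fin.succAbove_last]
    have hmib : ∀ b, |mi b| ≤ M.factorial := fun b => by
      simp only [hmi]
      rw [abs_mul, abs_pow, abs_neg, abs_one, one_pow, one_mul]
      have h1 := Matrix.det_le (abv := AbsoluteValue.abs) (x := (1 : ℝ))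
        (A := Matrix.of fun (a : Fin r) (b' : Fin r) =>
          mon (e (Fin.castLE hr (b.succAbove b'))) (y (z a))) (fun i j => by
            simpa using hmon1 _ _)
      have h2 : (r.factorial : ℝ) ≤ M.factorial := by
        exact_mod_cast Nat.factorial_le (by omega)
      simp only [Fintype.card_fin, one_pow, nsmul_eq_mul, mul_one] at h1
      exact le_trans h1 h2
    set c : Fin M → ℝ := fun i => if h : (i : ℕ) < r + 1 then mi ⟨i, h⟩ else 0 with hc
    have hcb : ∀ i, |c i| ≤ M.factorial := fun i => by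
      simp only [hc]
      split_ifs with h
      · exact hmib _
      · rw [abs_zero]
        positivity
    have hcv : ∀ b : Fin (r + 1), c (Fin.castLE hr b) = mi b := fun b => by
      simp only [hc]
      rw [dif_pos (show ((Fin.castLE hr b : Fin M) : ℕ) < r + 1 from b.2)]
      rfl
    have hsum : ∀ g : Fin M → ℝ, ∑ i, c i * g i = ∑ b, mi b * g (Fin.castLE hr b) := by
      intro g
      have hinj : Function.Injective (Fin.castLE hr) := Fin.castLE_injective hr
      rw [← Finset.sum_subset (Finset.subset_univ (univ.image (Fin.castLE hr)))]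
      · rw [Finset.sum_image (fun a _ b _ h => hinj h)]
        refine Finset.sum_congr rfl fun b _ => ?_
        rw [hcv]
      · intro i _ hi
        have h1 : ¬ (i : ℕ) < r + 1 := fun h =>
          hi (Finset.mem_image.2 ⟨⟨i, h⟩, Finset.mem_univ _, rfl⟩)
        have h2 : c i = 0 := by
          simp only [hc]
          rw [dif_neg h1]
        rw [h2, zero_mul]
    obtain ⟨x, hx, hbig⟩ := hdp N ρ y0 c S (γ ^ r) hρ hρ1 hN hy0 hSc (by positivity)
      ⟨Fin.castLE hr (Fin.last r), by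
        rw [hcv]
        exact hmilast⟩
    obtain ⟨w, hw⟩ := hS x hx
    refine ⟨Fin.snoc z w, ?_⟩
    have h3 : (A w).det = ∑ i, c i * mon (e i) (y w) := by
      rw [hdet, hsum]
    have hN1 : (1 : ℝ) / N ≤ 1 := by
      rw [div_le_one hNpos]
      have h4 : 1 ≤ N := by exact_mod_cast Nat.one_le_iff_ne_zero.2 (by
        intro h
        rw [h] at hNpos
        simp at hNpos)
      exact_mod_cast h4
    have hgrid : ∀ l, |y0 l + ((x l : ℕ) : ℝ) / N| ≤ B + 1 := fun l => by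
      have h4 : ((x l : ℕ) : ℝ) / N ≤ 1 := by
        rw [div_le_one hNpos]
        exact_mod_cast (x l).2.le
      have h5 : 0 ≤ ((x l : ℕ) : ℝ) / N := by positivity
      have h6 := abs_le.1 (hy0 l)
      rw [abs_le]
      constructor <;> linarith [h6.1, h6.2]
    have herr : |∑ i, c i * mon (e i) (y w) -
        ∑ i, c i * mon (e i) (fun l => y0 l + ((x l : ℕ) : ℝ) / N)| ≤ γ ^ (r + 1) := by
      rw [← Finset.sum_sub_distrib]
      calc |∑ i, (c i * mon (e i) (y w) -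
            c i * mon (e i) (fun l => y0 l + ((x l : ℕ) : ℝ) / N))|
          ≤ ∑ i, (M.factorial : ℝ) * (L i * (1 / N)) := by
            refine (Finset.abs_sum_le_sum_abs _ _).trans ?_
            refine Finset.sum_le_sum fun i _ => ?_
            rw [← mul_sub, abs_mul]
            refine mul_le_mul (hcb i) ?_ (abs_nonneg _) (by positivity)
            refine hLip i _ _ _ (by positivity) (fun l => (hy w l).trans (by linarith)) hgrid
              (fun l => ?_)
            have h7 := hs w l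
            rw [hw] at h7
            exact h7
        _ = (M.factorial : ℝ) * Lt / N := by
            rw [hLt, ← Finset.mul_sum, ← Finset.sum_mul]
            ring
        _ ≤ γ ^ (M + 1) := by
            rw [div_le_iff₀ hNpos]
            exact hD
        _ ≤ γ ^ (r + 1) := pow_le_pow_of_le_one hγ0.le hγ1 (by omega)
    have h8 : γ ^ r * ρ ^ C / C = 2 * γ ^ (r + 1) := by
      rw [pow_succ, hγ]
      field_simp
    rw [h8] at hbig
    have h9 : (Matrix.of fun a b : Fin (r + 1) => mon (e (Fin.castLE hr b))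
        (y ((Fin.snoc z w : Fin (r + 1) → ζ) a))).det = (A w).det := rfl
    rw [h9, h3]
    have h10 := abs_sub_abs_le_abs_sub
      (∑ i, c i * mon (e i) (fun l => y0 l + ((x l : ℕ) : ℝ) / N))
      (∑ i, c i * mon (e i) (y w))
    rw [abs_sub_comm] at herr
    linarith

/-- **Unisolvent typical points** (UN2). A family of points which meets at least `ρ N^k` cells of
the grid of side `1 / N` contains points at which the monomials with the exponents `e i` are
invertible, with an inverse of size at most `C (1/ρ)^C`. -/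
theorem un2 {k : ℕ} {ι : Type} [Fintype ι] [DecidableEq ι] (K : ℕ) (e : ι → Fin k → ℕ)
    (he : Function.Injective e) (hK : ∀ i l, e i l ≤ K) (B : ℝ) (hB : 0 ≤ B) :
    ∃ C : ℕ, 1 ≤ C ∧ ∀ (N : ℕ) (ρ : ℝ) (ζ : Type) (y : ζ → Fin k → ℝ)
      (s : ζ → Fin k → Fin N) (y0 : Fin k → ℝ), 0 < ρ → ρ ≤ 1 → (C : ℝ) ≤ ρ ^ C * N →
      (∀ l, |y0 l| ≤ B) → (∀ z l, |y z l| ≤ 1) →
      (∀ z l, |y z l - (y0 l + ((s z l : ℕ) : ℝ) / N)| ≤ 1 / N) →
      (∃ S : Finset (Fin k → Fin N), (∀ x ∈ S, ∃ z, s z = x) ∧ ρ * (N : ℝ) ^ k ≤ S.card) →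
      ∃ (z : ι → ζ) (Q : ι → ι → ℝ), (∀ i j, |Q i j| ≤ C * (1 / ρ) ^ C) ∧
        (∀ v : ι → ℝ, ∀ i, ∑ j, mon (e j) (y (z i)) * ∑ l, Q j l * v l = v i) ∧
        (∀ v : ι → ℝ, ∀ i, ∑ j, Q i j * ∑ l, mon (e l) (y (z j)) * v l = v i) := by
  classical
  set M : ℕ := Fintype.card ι with hM
  set q : ι ≃ Fin M := Fintype.equivFin ι with hq
  obtain ⟨C, D, hC, hD, hg⟩ := greedy (M := M) K (fun i => e (q.symm i))
    (he.comp q.symm.injective) (fun i l => hK _ l) B hB
  have hC0 : (0 : ℝ) < C := by exact_mod_cast hC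
  set C' : ℕ := C * (M + 1) + ⌈D * (2 * C) ^ (M + 1)⌉₊ + M.factorial * (2 * C) ^ M with hC'
  have hC'C : C * (M + 1) ≤ C' := by omega
  have hC'C' : C ≤ C' := (Nat.le_mul_of_pos_right C (by omega)).trans hC'C
  refine ⟨C', hC.trans hC'C', fun N ρ ζ y s y0 hρ hρ1 hN hy0 hy hs hS => ?_⟩
  have hρpow : ∀ a b : ℕ, a ≤ b → ρ ^ b ≤ ρ ^ a := fun a b h =>
    pow_le_pow_of_le_one hρ.le hρ1 h
  have hNN : (0 : ℝ) ≤ N := Nat.cast_nonneg _
  have hN1 : (C : ℝ) ≤ ρ ^ C * N := by
    calc (C : ℝ) ≤ C' := by exact_mod_cast hC'C'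
      _ ≤ ρ ^ C' * N := hN
      _ ≤ ρ ^ C * N := mul_le_mul_of_nonneg_right (hρpow _ _ hC'C') hNN
  have hN2 : D ≤ (ρ ^ C / (2 * C)) ^ (M + 1) * N := by
    rw [div_pow, ← pow_mul, div_mul_eq_mul_div, le_div_iff₀ (by positivity)]
    have h1 : D * (2 * C) ^ (M + 1) ≤ C' := by
      refine (Nat.le_ceil _).trans ?_
      rw [hC']
      push_cast
      have h2 : (0 : ℝ) ≤ (C : ℝ) * (M + 1) := by positivity
      have h3 : (0 : ℝ) ≤ (M.factorial : ℝ) * (2 * C) ^ M := by positivity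
      linarith
    calc D * (2 * C) ^ (M + 1) ≤ C' := h1
      _ ≤ ρ ^ C' * N := hN
      _ ≤ ρ ^ (C * (M + 1)) * N := mul_le_mul_of_nonneg_right (hρpow _ _ hC'C) hNN
  obtain ⟨z, hz⟩ := hg N ρ ζ y s y0 hρ hρ1 hN1 hN2 hy0 hy hs hS M le_rfl
  set G : Matrix ι ι ℝ := Matrix.of fun i j => mon (e j) (y (z (q i))) with hG
  have hdet : |G.det| = |(Matrix.of fun a b : Fin M => mon (e (q.symm (Fin.castLE le_rfl b)))
      (y (z a))).det| := by
    rw [← Matrix.det_submatrix_equiv_self q.symm G]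
    congr 2
    ext a b
    simp [hG]
  have hγ : 0 < (ρ ^ C / (2 * C)) ^ M := by positivity
  have hdet0 : (ρ ^ C / (2 * C)) ^ M ≤ |G.det| := by
    rw [hdet]
    exact hz
  have hdetpos : 0 < |G.det| := lt_of_lt_of_le hγ hdet0
  have hunit : IsUnit G.det := isUnit_iff_ne_zero.2 (abs_pos.1 hdetpos)
  have hmon1 : ∀ i w, |mon (e i) (y w)| ≤ 1 := fun i w => by
    rw [mon, Finset.abs_prod]
    refine Finset.prod_le_one (fun _ _ => abs_nonneg _) fun l _ => ?_
    rw [abs_pow]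
    exact pow_le_one₀ (abs_nonneg _) (hy w l)
  refine ⟨fun i => z (q i), fun i j => G⁻¹ i j, fun i j => ?_, fun v i => ?_, fun v i => ?_⟩
  · have h1 : |G.adjugate i j| ≤ M.factorial := by
      rw [Matrix.adjugate_apply]
      have h2 := Matrix.det_le (abv := AbsoluteValue.abs) (x := (1 : ℝ))
        (A := G.updateRow j (Pi.single i 1)) (fun a b => by
          by_cases ha : a = j
          · subst ha
            rw [Matrix.updateRow_self]
            by_cases hb : b = i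
            · subst hb
              simp
            · simp [Pi.single_eq_of_ne hb]
          · rw [Matrix.updateRow_ne ha]
            simpa [hG] using hmon1 b _)
      simpa [hM] using h2
    have hinv : G⁻¹ i j = (G.det)⁻¹ * G.adjugate i j := by
      rw [Matrix.inv_def, Matrix.smul_apply, smul_eq_mul, Ring.inverse_eq_inv']
    show |G⁻¹ i j| ≤ _
    rw [hinv, abs_mul, abs_inv]
    calc |G.det|⁻¹ * |G.adjugate i j| ≤ ((ρ ^ C / (2 * C)) ^ M)⁻¹ * M.factorial :=
          mul_le_mul (inv_anti₀ hγ hdet0) h1 (abs_nonneg _) (by positivity)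
      _ = (M.factorial * (2 * C) ^ M) * (1 / ρ) ^ (C * M) := by
          rw [div_pow, inv_div, ← pow_mul, one_div, inv_pow]
          ring
      _ ≤ C' * (1 / ρ) ^ C' := by
          have h3 : (1 : ℝ) ≤ 1 / ρ := by
            rw [le_div_iff₀ hρ]
            linarith
          refine mul_le_mul ?_ (pow_le_pow_right₀ h3 ?_) (by positivity) (by positivity)
          · rw [hC']
            push_cast
            have h4 : (0 : ℝ) ≤ (C : ℝ) * (M + 1) := by positivity
            have h5 : (0 : ℝ) ≤ (⌈D * (2 * (C : ℝ)) ^ (M + 1)⌉₊ : ℝ) := Nat.cast_nonneg _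
            linarith
          · refine le_trans ?_ hC'C
            exact Nat.mul_le_mul_left _ (by omega)
  · have h1 : G.mulVec (G⁻¹.mulVec v) = v := by
      rw [Matrix.mulVec_mulVec, Matrix.mul_nonsing_inv _ hunit, Matrix.one_mulVec]
    have h2 := congrFun h1 i
    simpa [Matrix.mulVec, dotProduct, hG] using h2
  · have h1 : G⁻¹.mulVec (G.mulVec v) = v := by
      rw [Matrix.mulVec_mulVec, Matrix.nonsing_inv_mul _ hunit, Matrix.one_mulVec]
    have h2 := congrFun h1 i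
    simpa [Matrix.mulVec, dotProduct, hG] using h2

/-- **Unisolvent typical points, entropy form.** If the cell of `y` is uniform up to `e0` and the
event `T` has probability `β`, then `T` contains points at which the monomials with the exponents
`e i` are boundedly invertible. -/
theorem un2_law {k : ℕ} {ι : Type} [Fintype ι] [DecidableEq ι] (K : ℕ) (e : ι → Fin k → ℕ)
    (he : Function.Injective e) (hK : ∀ i l, e i l ≤ K) (B : ℝ) (hB : 0 ≤ B) :
    ∃ C : ℕ, 1 ≤ C ∧ ∀ (Ω : Type) [Fintype Ω] (p : Ω → ℝ) (N : ℕ) (y : Ω → Fin k → ℝ)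
      (s : Ω → Fin k → Fin N) (y0 : Fin k → ℝ) (T : Set Ω) (e0 β : ℝ), IsLaw p → 0 < β →
      0 ≤ e0 → (C : ℝ) * Real.exp (C * ((e0 + Real.log 2) / β)) ≤ N →
      (∀ l, |y0 l| ≤ B) → (∀ z l, |y z l| ≤ 1) →
      (∀ z l, |y z l - (y0 l + ((s z l : ℕ) : ℝ) / N)| ≤ 1 / N) →
      k * Real.log N - e0 ≤ H p s → β ≤ Pr p T →
      ∃ (z : ι → Ω) (Q : ι → ι → ℝ), (∀ i, z i ∈ T ∧ 0 < p (z i)) ∧
        (∀ i j, |Q i j| ≤ C * Real.exp (C * ((e0 + Real.log 2) / β))) ∧
        (∀ v : ι → ℝ, ∀ i, ∑ j, mon (e j) (y (z i)) * ∑ l, Q j l * v l = v i) ∧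
        (∀ v : ι → ℝ, ∀ i, ∑ j, Q i j * ∑ l, mon (e l) (y (z j)) * v l = v i) := by
  classical
  obtain ⟨C, hC, hun⟩ := un2 K e he hK B hB
  refine ⟨C, hC, fun Ω _ p N y s y0 T e0 β hp hβ he0 hN hy0 hy hs hH hPr => ?_⟩
  have hC0 : (0 : ℝ) < C := by exact_mod_cast hC
  have hNpos : (0 : ℝ) < N := lt_of_lt_of_le (by positivity) hN
  set a : ℝ := (e0 + Real.log 2) / β with ha
  have ha0 : 0 ≤ a := div_nonneg (add_nonneg he0 (Real.log_nonneg one_le_two)) hβ.le
  set ρ : ℝ := Real.exp (-a) with hρ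
  have hρ0 : 0 < ρ := Real.exp_pos _
  have hρ1 : ρ ≤ 1 := Real.exp_le_one_iff.2 (by linarith)
  have hρC : ρ ^ C = (Real.exp (C * a))⁻¹ := by
    rw [hρ, ← Real.exp_nat_mul, ← Real.exp_neg]
    congr 1
    ring
  have hρC' : (1 / ρ) ^ C = Real.exp (C * a) := by
    rw [one_div, inv_pow, hρC, inv_inv]
  have hN' : (C : ℝ) ≤ ρ ^ C * N := by
    rw [hρC, inv_mul_eq_div, le_div_iff₀ (Real.exp_pos _)]
    exact hN
  set E : Finset (Fin k → Fin N) := univ.filter fun x => ∃ ω, ω ∈ T ∧ 0 < p ω ∧ s ω = x with hE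
  have hPE : β ≤ Pr p {ω | s ω ∈ E} := by
    refine hPr.trans (Pool.KAF.Pr_mono hp.nonneg fun ω hω hT => ?_)
    simp only [Set.mem_setOf_eq, hE, Finset.mem_filter, Finset.mem_univ, true_and]
    exact ⟨ω, hT, hω, rfl⟩
  have hlog : Real.log ((univ : Finset (Fin k → Fin N)).card : ℝ) = k * Real.log N := by
    rw [Finset.card_univ, Fintype.card_fun, Fintype.card_fin, Fintype.card_fin]
    push_cast
    rw [Real.log_pow]
  have hg := gib_thm Ω (Fin k → Fin N) p s univ E e0 β hp (fun _ => Finset.mem_univ _)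
    (Finset.subset_univ _) hβ hPE (by rw [hlog]; exact hH)
  have hcard : ρ * (N : ℝ) ^ k ≤ E.card := by
    have h1 : ((univ : Finset (Fin k → Fin N)).card : ℝ) = (N : ℝ) ^ k := by
      rw [Finset.card_univ, Fintype.card_fun, Fintype.card_fin, Fintype.card_fin]
      push_cast
      rfl
    rw [h1] at hg
    exact hg
  obtain ⟨z, Q, h1, h2, h3⟩ := hun N ρ {ω : Ω // ω ∈ T ∧ 0 < p ω} (fun z => y z.1)
    (fun z => s z.1) y0 hρ0 hρ1 hN' hy0 (fun z => hy z.1) (fun z => hs z.1)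
    ⟨E, fun x hx => by
      obtain ⟨ω, hT, hω, hx⟩ := (Finset.mem_filter.1 hx).2
      exact ⟨⟨ω, hT, hω⟩, hx⟩, hcard⟩
  refine ⟨fun i => (z i).1, Q, fun i => (z i).2, fun i j => ?_, h2, h3⟩
  have h4 := h1 i j
  rw [hρC'] at h4
  exact h4

end Pool.SLP
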